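import Pool.Agent.W951.BP.Stm

/-!
# The choice of the parameters (`S_PAR`)
-/

namespace Pool.Agent.W716.BP

open Filter Topology

theorem ev (δ C : ℝ) (k : ℕ) (hδ : 0 < δ) (hk : 1 ≤ k) :
    ∀ᶠ r : ℕ in atTop, C * ((r : ℝ) ^ 1 * ((2 : ℝ) ^ (-δ)) ^ r) +
      (r : ℝ) ^ 2 * ((1 / 2 : ℝ) ^ k) ^ r ≤ 1 := by
  have h1 : Tendsto (fun r : ℕ => (r : ℝ) ^ 1 * ((2 : ℝ) ^ (-δ)) ^ r) atTop (𝓝 0) := by
    apply tendsto_pow_const_mul_const_pow_of_abs_lt_one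
    rw [abs_of_pos (by positivity)]
    exact Real.rpow_lt_one_of_one_lt_of_neg (by norm_num) (by linarith)
  have h2 : Tendsto (fun r : ℕ => (r : ℝ) ^ 2 * ((1 / 2 : ℝ) ^ k) ^ r) atTop (𝓝 0) := by
    apply tendsto_pow_const_mul_const_pow_of_abs_lt_one
    rw [abs_of_pos (by positivity)]
    exact pow_lt_one₀ (by norm_num) (by norm_num) (by omega)
  have h3 := (h1.const_mul C).add h2
  simp only [mul_zero, add_zero] at h3
  exact (h3.eventually (gt_mem_nhds one_pos)).mono fun r hr => le_of_lt hr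

theorem t_PAR : Pool.Agent.W951.BP.S_PAR := by
  intro k h b A hk hb hhb hA r₀
  have hk1 : (0 : ℝ) < (k : ℝ) + 1 := by positivity
  obtain ⟨δ, hδd⟩ : ∃ δ : ℝ, δ = (k : ℝ) - (k + 1) * (h * b) := ⟨_, rfl⟩
  have hδ : 0 < δ := by
    rw [lt_div_iff₀ hk1] at hhb
    rw [hδd]; nlinarith
  obtain ⟨C, hCd⟩ : ∃ C : ℝ, C = A * (1 + A) ^ h * (2 : ℝ) ^ (((k : ℝ) + 1) * (h * b)) := ⟨_, rfl⟩
  obtain ⟨r1, hr1⟩ := eventually_atTop.1 (ev δ C k hδ (by omega))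
  refine ⟨2 ^ ((max r₀ (max r1 (k + 3))) * (k + 1)), fun n hn => ?_⟩
  obtain ⟨R, hR⟩ : ∃ R, R = max r₀ (max r1 (k + 3)) := ⟨_, rfl⟩
  rw [← hR] at hn
  have hn0 : n ≠ 0 := by
    have : 0 < 2 ^ (R * (k + 1)) := by positivity
    omega
  obtain ⟨r, hr⟩ : ∃ r, r = Nat.log 2 n / (k + 1) := ⟨_, rfl⟩
  have hRr : R ≤ r := by
    rw [hr, Nat.le_div_iff_mul_le (by omega)]
    exact Nat.le_log_of_pow_le (by norm_num) hn
  have hr0 : r₀ ≤ r := le_trans (by rw [hR]; exact le_max_left _ _) hRr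
  have hrr1 : r1 ≤ r := le_trans (by rw [hR]; exact le_trans (le_max_left _ _) (le_max_right _ _)) hRr
  have hrk : k + 3 ≤ r :=
    le_trans (by rw [hR]; exact le_trans (le_max_right _ _) (le_max_right _ _)) hRr
  have hlow : 2 ^ (r * (k + 1)) ≤ n := by
    calc 2 ^ (r * (k + 1)) ≤ 2 ^ Nat.log 2 n := by
          apply Nat.pow_le_pow_right (by norm_num)
          rw [hr]; exact Nat.div_mul_le_self _ _
      _ ≤ n := Nat.pow_log_le_self 2 hn0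
  have hup : n < 2 ^ ((r + 1) * (k + 1)) := by
    have h1 : n < 2 ^ (Nat.log 2 n + 1) := Nat.lt_pow_succ_log_self (by norm_num) n
    refine lt_of_lt_of_le h1 (Nat.pow_le_pow_right (by norm_num) ?_)
    have h2 : Nat.log 2 n < (k + 1) * (r + 1) := by
      rw [hr]; exact Nat.lt_mul_div_succ _ (by omega)
    have h3 : (k + 1) * (r + 1) = (r + 1) * (k + 1) := by ring
    omega
  obtain ⟨T, hT⟩ : ∃ T, T = 2 ^ (k * r) / r ^ 2 := ⟨_, rfl⟩
  have hrpos : 0 < r := by omega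
  have hTmul : T * r ^ 2 ≤ 2 ^ (k * r) := by rw [hT]; exact Nat.div_mul_le_self _ _
  have hTpos : 0 < T := by
    rw [hT]
    apply Nat.div_pos _ (by positivity)
    calc r ^ 2 ≤ (2 ^ r) ^ 2 := Nat.pow_le_pow_left (Nat.lt_two_pow_self).le 2
      _ = 2 ^ (r * 2) := by rw [← pow_mul]
      _ ≤ 2 ^ (k * r) := by
        apply Nat.pow_le_pow_right (by norm_num)
        rw [mul_comm k r]
        exact Nat.mul_le_mul_left r (by omega)
  refine ⟨r, T, hr0, hT, hTpos, ?_, ?_⟩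
  · have h1 : T * 2 ^ r + (T * (2 ^ r + 1) + (r * T) * k * 2 ^ r) ≤ T * 2 ^ r * (3 + k * r) := by
      have h0 : 1 ≤ 2 ^ r := Nat.one_le_two_pow
      have : T * (2 ^ r + 1) ≤ T * (2 * 2 ^ r) := Nat.mul_le_mul_left T (by omega)
      calc T * 2 ^ r + (T * (2 ^ r + 1) + (r * T) * k * 2 ^ r)
          ≤ T * 2 ^ r + (T * (2 * 2 ^ r) + (r * T) * k * 2 ^ r) := by omega
        _ = T * 2 ^ r * (3 + k * r) := by ring
    have h2 : 3 + k * r ≤ r ^ 2 := by nlinarith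
    calc T * 2 ^ r + (T * (2 ^ r + 1) + (r * T) * k * 2 ^ r) ≤ T * 2 ^ r * (3 + k * r) := h1
      _ ≤ T * 2 ^ r * r ^ 2 := Nat.mul_le_mul_left _ h2
      _ = (T * r ^ 2) * 2 ^ r := by ring
      _ ≤ 2 ^ (k * r) * 2 ^ r := Nat.mul_le_mul_right _ hTmul
      _ = 2 ^ (r * (k + 1)) := by rw [← pow_add]; congr 1; ring
      _ ≤ n := hlow
  · have hrR : (0 : ℝ) < r := by exact_mod_cast hrpos
    -- lower bound for `T`
    have hTl : (2 : ℝ) ^ (k * r) / (r : ℝ) ^ 2 - 1 ≤ T := by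
      have h1 : 2 ^ (k * r) < (T + 1) * r ^ 2 := by
        rw [hT]
        have h0 := Nat.lt_mul_div_succ (2 ^ (k * r)) (show 0 < r ^ 2 by positivity)
        rw [mul_comm (r ^ 2)] at h0
        exact h0
      have h2 : (2 : ℝ) ^ (k * r) < (T + 1) * (r : ℝ) ^ 2 := by exact_mod_cast h1
      rw [sub_le_iff_le_add, div_le_iff₀ (by positivity)]
      exact h2.le
    have hmain := hr1 r hrr1
    -- upper bound for the left hand side
    have hnb : (n : ℝ) ^ b ≤ (2 : ℝ) ^ (((r : ℝ) + 1) * (k + 1) * b) := by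
      have h1 : (n : ℝ) ≤ (2 : ℝ) ^ (((r : ℝ) + 1) * (k + 1)) := by
        have h2 : (n : ℝ) ≤ (2 : ℝ) ^ ((r + 1) * (k + 1)) := by exact_mod_cast hup.le
        have h3 : (2 : ℝ) ^ (((r : ℝ) + 1) * (k + 1)) = (2 : ℝ) ^ ((r + 1) * (k + 1)) := by
          rw [← Real.rpow_natCast]; push_cast; rfl
        rw [h3]; exact h2
      calc (n : ℝ) ^ b ≤ ((2 : ℝ) ^ (((r : ℝ) + 1) * (k + 1))) ^ b :=
            Real.rpow_le_rpow (by positivity) h1 hb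
        _ = _ := by rw [← Real.rpow_mul (by norm_num)]
    have hge1 : (1 : ℝ) ≤ (2 : ℝ) ^ (((r : ℝ) + 1) * (k + 1) * b) :=
      Real.one_le_rpow (by norm_num) (by positivity)
    have h5 : A * ((n : ℝ) ^ b + A) ^ h ≤ C * (2 : ℝ) ^ ((r : ℝ) * (k - δ)) := by
      have h6 : (n : ℝ) ^ b + A ≤ (1 + A) * (2 : ℝ) ^ (((r : ℝ) + 1) * (k + 1) * b) := by
        nlinarith
      have h7 : ((n : ℝ) ^ b + A) ^ h ≤ ((1 + A) * (2 : ℝ) ^ (((r : ℝ) + 1) * (k + 1) * b)) ^ h :=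
        pow_le_pow_left₀ (by positivity) h6 h
      have h8 : ((2 : ℝ) ^ (((r : ℝ) + 1) * (k + 1) * b)) ^ h =
          (2 : ℝ) ^ (((k : ℝ) + 1) * (h * b)) * (2 : ℝ) ^ ((r : ℝ) * (k - δ)) := by
        rw [← Real.rpow_natCast, ← Real.rpow_mul (by norm_num), ← Real.rpow_add (by norm_num), hδd]
        congr 1; ring
      rw [mul_pow, h8] at h7
      calc A * ((n : ℝ) ^ b + A) ^ h
          ≤ A * ((1 + A) ^ h * ((2 : ℝ) ^ (((k : ℝ) + 1) * (h * b)) *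
              (2 : ℝ) ^ ((r : ℝ) * (k - δ)))) := mul_le_mul_of_nonneg_left h7 hA.le
        _ = C * (2 : ℝ) ^ ((r : ℝ) * (k - δ)) := by rw [hCd]; ring
    refine h5.trans ?_
    have h9 : ((r * T : ℕ) : ℝ) = r * T := by push_cast; ring
    rw [h9]
    have h10 : (2 : ℝ) ^ (k * r) / r - r ≤ r * T := by
      have := mul_le_mul_of_nonneg_left hTl hrR.le
      calc (2 : ℝ) ^ (k * r) / r - r = r * ((2 : ℝ) ^ (k * r) / (r : ℝ) ^ 2 - 1) := by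
            field_simp
        _ ≤ _ := this
    refine le_trans ?_ h10
    -- divide by `2 ^ (k r)`
    have hP : (0 : ℝ) < (2 : ℝ) ^ (k * r) := by positivity
    have e1 : (2 : ℝ) ^ ((r : ℝ) * (k - δ)) = (2 : ℝ) ^ (k * r) * ((2 : ℝ) ^ (-δ)) ^ r := by
      rw [← Real.rpow_natCast ((2 : ℝ) ^ (-δ)), ← Real.rpow_mul (by norm_num), ← Real.rpow_natCast,
        ← Real.rpow_add (by norm_num)]
      congr 1; push_cast; ring
    have e2 : (2 : ℝ) ^ (k * r) * ((1 / 2 : ℝ) ^ k) ^ r = 1 := by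
      rw [← pow_mul, ← mul_pow]; norm_num
    have e3 : C * ((r : ℝ) ^ 1 * ((2 : ℝ) ^ (-δ)) ^ r) * (2 : ℝ) ^ (k * r) + (r : ℝ) ^ 2 ≤
        (2 : ℝ) ^ (k * r) := by
      have := mul_le_mul_of_nonneg_left hmain hP.le
      calc C * ((r : ℝ) ^ 1 * ((2 : ℝ) ^ (-δ)) ^ r) * (2 : ℝ) ^ (k * r) + (r : ℝ) ^ 2
          = C * ((r : ℝ) ^ 1 * ((2 : ℝ) ^ (-δ)) ^ r) * (2 : ℝ) ^ (k * r) +
            (r : ℝ) ^ 2 * ((2 : ℝ) ^ (k * r) * ((1 / 2 : ℝ) ^ k) ^ r) := by rw [e2]; ring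
        _ = (2 : ℝ) ^ (k * r) * (C * ((r : ℝ) ^ 1 * ((2 : ℝ) ^ (-δ)) ^ r) +
            (r : ℝ) ^ 2 * ((1 / 2 : ℝ) ^ k) ^ r) := by ring
        _ ≤ (2 : ℝ) ^ (k * r) * 1 := this
        _ = _ := by ring
    rw [e1, le_sub_iff_add_le, le_div_iff₀ hrR]
    nlinarith

end Pool.Agent.W716.BP
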